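import Pool.Agent.helper17.MK.Spec

/-!
# Row mk:BH (MP_bf63dc_nt): Brun's sieve
-/

set_option autoImplicit false

namespace Pool.Agent.MK

open Finset Real Pool.Agent.helper39.MT Pool.Agent.helper85.FC Pool.Agent.Lib.BrunHooley

theorem BH_mem {w z : ℝ} (hz : 0 ≤ z) (p : ℕ) :
    p ∈ RLS.PP w z ↔ p.Prime ∧ w < (p : ℝ) ∧ (p : ℝ) ≤ z := by
  rw [RLS.PP, mem_filter, mem_range, Nat.lt_succ_iff, Nat.le_floor_iff hz]
  tauto

theorem BH_mert : ∃ S : ℝ, 0 < S ∧ ∀ w : ℝ, 1 ≤ w →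
    ∑ p ∈ RLS.PP (Real.sqrt w) w, 4 / (p : ℝ) ≤ S := by
  obtain ⟨C, hC, hup⟩ := RLS.ME_nat_up
  have hl2 : 0 < Real.log 2 := Real.log_pos (by norm_num)
  have hl4 : 0 < Real.log 4 := Real.log_pos (by norm_num)
  refine ⟨4 * (4 + Real.log 4 + C / Real.log 2), by positivity, ?_⟩
  intro w hw
  have h4 : ∑ p ∈ RLS.PP (Real.sqrt w) w, 4 / (p : ℝ) =
      4 * ∑ p ∈ RLS.PP (Real.sqrt w) w, 1 / (p : ℝ) := by
    rw [mul_sum]
    exact sum_congr rfl fun p _ => by ring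
  rw [h4]
  refine mul_le_mul_of_nonneg_left ?_ (by norm_num)
  rcases lt_or_ge w 4 with h | h
  · have h1 : ∑ p ∈ RLS.PP (Real.sqrt w) w, 1 / (p : ℝ) ≤ ∑ p ∈ range 4, (1 : ℝ) := by
      have h2 : RLS.PP (Real.sqrt w) w ⊆ range 4 := by
        intro p hp
        rw [BH_mem (by linarith)] at hp
        rw [mem_range]
        have : (p : ℝ) < 4 := lt_of_le_of_lt hp.2.2 h
        exact_mod_cast this
      have h3 : ∑ p ∈ RLS.PP (Real.sqrt w) w, 1 / (p : ℝ) ≤
          ∑ p ∈ RLS.PP (Real.sqrt w) w, (1 : ℝ) := by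
        refine sum_le_sum fun p hp => ?_
        rw [BH_mem (by linarith)] at hp
        have h5 : (1 : ℝ) ≤ p := by exact_mod_cast hp.1.one_lt.le
        rw [div_le_one (by linarith)]
        exact h5
      exact h3.trans (sum_le_sum_of_subset_of_nonneg h2 fun _ _ _ => zero_le_one)
    have h5 : ∑ p ∈ range 4, (1 : ℝ) = 4 := by simp
    have h6 : 0 ≤ Real.log 4 + C / Real.log 2 := by positivity
    linarith
  · set x : ℝ := Real.sqrt w with hx
    have hx2 : 2 ≤ x := by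
      rw [hx, show (2 : ℝ) = Real.sqrt 4 by
        rw [show (4 : ℝ) = 2 ^ 2 by norm_num, Real.sqrt_sq (by norm_num)]]
      exact Real.sqrt_le_sqrt h
    have hxw : x ^ 2 = w := Real.sq_sqrt (by linarith)
    have hxlew : x ≤ w := by nlinarith
    set k : ℕ := ⌊x⌋₊ with hk
    set n : ℕ := ⌊w⌋₊ with hn
    have hk2 : 2 ≤ k := Nat.le_floor (by exact_mod_cast hx2)
    have hkn : k ≤ n := Nat.floor_le_floor hxlew
    have hkR : (2 : ℝ) ≤ (k : ℝ) := by exact_mod_cast hk2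
    have hknR : (k : ℝ) ≤ (n : ℝ) := by exact_mod_cast hkn
    have hxk : x ≤ (k : ℝ) + 1 := (Nat.lt_floor_add_one x).le
    have hnw : (n : ℝ) ≤ w := Nat.floor_le (by linarith)
    have hPP : RLS.PP x w = (Ioc k n).filter Nat.Prime := by
      ext p
      rw [RLS.PP, mem_filter, mem_filter, mem_range, mem_Ioc]
      have e1 : x < (p : ℝ) ↔ k < p := (Nat.floor_lt (by linarith)).symm
      rw [e1]
      constructor
      · rintro ⟨a, b, d⟩
        exact ⟨⟨d, by omega⟩, b⟩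
      · rintro ⟨⟨a, b⟩, d⟩
        exact ⟨by omega, d, a⟩
    have hu := hup k n hk2 hkn
    rw [hPP]
    have hlk2 : Real.log 2 ≤ Real.log k := Real.log_le_log (by norm_num) hkR
    have hlk : 0 < Real.log k := by linarith
    have hw4 : w ≤ (k : ℝ) ^ 4 := by
      have h1 : x ≤ (k : ℝ) ^ 2 := by nlinarith
      have h2 : x ^ 2 ≤ ((k : ℝ) ^ 2) ^ 2 := pow_le_pow_left₀ (by linarith) h1 2
      calc w = x ^ 2 := hxw.symm
        _ ≤ ((k : ℝ) ^ 2) ^ 2 := h2
        _ = (k : ℝ) ^ 4 := by ring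
    have hlw : Real.log n ≤ 4 * Real.log k := by
      have h1 := Real.log_le_log (by linarith : (0 : ℝ) < n) (hnw.trans hw4)
      rw [Real.log_pow] at h1
      exact_mod_cast h1
    have hln : 0 < Real.log n := Real.log_pos (by linarith)
    have hll : Real.log (Real.log n) ≤ Real.log 4 + Real.log (Real.log k) := by
      rw [← Real.log_mul (by norm_num) hlk.ne']
      exact Real.log_le_log hln hlw
    have hCk : C / Real.log k ≤ C / Real.log 2 := div_le_div_of_nonneg_left hC.le hl2 hlk2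
    linarith

/-- The new weights. -/
noncomputable def BH_w (A B : Finset ℕ) (c : ℕ) (l' : Finset ℕ → ℝ) (K : Finset ℕ) : ℝ :=
  if K ⊆ A ∪ B ∧ (K ∩ B).card ≤ 2 * c then l' (K \ B) * (-1) ^ (K ∩ B).card else 0

theorem BH_mn (A B : Finset ℕ) (c : ℕ) (l' : Finset ℕ → ℝ) (g : ℕ → ℝ) (P : Finset ℕ)
    (hP : P ⊆ A ∪ B) : Mn (BH_w A B c l') g P = Mn l' g (P \ B) * ts (P ∩ B) g (2 * c) := by
  have h1 : ts (P ∩ B) g (2 * c) = ∑ K ∈ (P ∩ B).powerset,
      if K.card ≤ 2 * c then (-1 : ℝ) ^ K.card * ∏ p ∈ K, g p else 0 := by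
    rw [← ts_eq_sum_powerset, sum_filter]
  rw [h1, Mn, Mn, sum_mul_sum, ← sum_product']
  refine sum_nbij' (fun K => (K \ B, K ∩ B)) (fun x => x.1 ∪ x.2) ?_ ?_ ?_ ?_ ?_
  · intro K hK
    rw [mem_powerset] at hK
    rw [mem_product, mem_powerset, mem_powerset]
    exact ⟨sdiff_subset_sdiff hK (subset_refl B), inter_subset_inter_right hK⟩
  · rintro ⟨K1, K2⟩ hK
    rw [mem_product, mem_powerset, mem_powerset] at hK
    rw [mem_powerset]
    exact union_subset (hK.1.trans sdiff_subset) (hK.2.trans inter_subset_left)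
  · intro K _
    exact sdiff_union_inter K B
  · rintro ⟨K1, K2⟩ hK
    rw [mem_product, mem_powerset, mem_powerset] at hK
    obtain ⟨hK1, hK2⟩ := hK
    have h3 : ∀ x ∈ K1, x ∉ B := fun x hx => (mem_sdiff.1 (hK1 hx)).2
    have h4 : ∀ x ∈ K2, x ∈ B := fun x hx => (mem_inter.1 (hK2 hx)).2
    refine Prod.ext ?_ ?_
    · ext x
      show x ∈ (K1 ∪ K2) \ B ↔ x ∈ K1
      rw [mem_sdiff, mem_union]
      constructor
      · rintro ⟨h5 | h5, h6⟩
        · exact h5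
        · exact absurd (h4 x h5) h6
      · intro h5
        exact ⟨Or.inl h5, h3 x h5⟩
    · ext x
      show x ∈ (K1 ∪ K2) ∩ B ↔ x ∈ K2
      rw [mem_inter, mem_union]
      constructor
      · rintro ⟨h5 | h5, h6⟩
        · exact absurd h6 (h3 x h5)
        · exact h5
      · intro h5
        exact ⟨Or.inr h5, h4 x h5⟩
  · intro K hK
    rw [mem_powerset] at hK
    show BH_w A B c l' K * ∏ p ∈ K, g p = l' (K \ B) * (∏ p ∈ K \ B, g p) *
      (if (K ∩ B).card ≤ 2 * c then (-1 : ℝ) ^ (K ∩ B).card * ∏ p ∈ K ∩ B, g p else 0)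
    rw [BH_w]
    by_cases h : (K ∩ B).card ≤ 2 * c
    · rw [if_pos ⟨hK.trans hP, h⟩, if_pos h, ← prod_inter_mul_prod_sdiff K B g]
      ring
    · rw [if_neg (fun h' => h h'.2), if_neg h]
      ring

theorem BH_sg (l : Finset ℕ → ℝ) (T : Finset ℕ) : Sg l T = Mn l (fun _ => 1) T := by
  rw [Sg, Mn]
  exact sum_congr rfl fun K _ => by rw [prod_const_one, mul_one]

theorem BH_ts_low (P : Finset ℕ) (g : ℕ → ℝ) (c : ℕ) (h0 : ∀ p ∈ P, 0 ≤ g p)
    (h1 : ∀ p ∈ P, g p ≤ 1) :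
    0 ≤ ts P g (2 * c) ∧ ts P g (2 * c) ≤ ∏ p ∈ P, (1 - g p) + es P g (2 * c + 1) := by
  obtain ⟨h2, h3⟩ := bonferroni P g h0 h1 (2 * c)
  rw [pow_mul, neg_one_sq, one_pow, one_mul] at h2 h3
  have h4 : 0 ≤ ∏ p ∈ P, (1 - g p) := prod_nonneg fun p hp => by linarith [h1 p hp]
  exact ⟨by linarith, by linarith⟩

theorem BH_exp {x : ℝ} (h0 : 0 ≤ x) (h1 : x ≤ 1 / 2) : Real.exp (-(2 * x)) ≤ 1 - x := by
  have h2 : 2 * x + 1 ≤ Real.exp (2 * x) := Real.add_one_le_exp _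
  rw [Real.exp_neg, inv_le_iff_one_le_mul₀ (Real.exp_pos _)]
  have h3 : (1 - x) * (2 * x + 1) ≤ (1 - x) * Real.exp (2 * x) :=
    mul_le_mul_of_nonneg_left h2 (by linarith)
  nlinarith

theorem BH_step (S κ : ℝ) (hS0 : 0 < S)
    (hS : ∀ w : ℝ, 1 ≤ w → ∑ p ∈ RLS.PP (Real.sqrt w) w, 4 / (p : ℝ) ≤ S)
    (hκ : ∀ c : ℕ, Real.exp (2 * S) * (S ^ (2 * c + 1) / ((2 * c + 1).factorial : ℝ)) ≤
      3 / 4 * κ * (1 / 4) ^ c)
    (w : ℝ) (hw : 1 ≤ w) (c : ℕ) (l' : Finset ℕ → ℝ)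
    (h : BHW (Real.exp (κ * (1 / 4) ^ (c + 1)) - 1) (4 * (c + 1) + 4) (Real.sqrt w) l') :
    BHW (Real.exp (κ * (1 / 4) ^ c) - 1) (4 * c + 4) w
      (BH_w (RLS.PP 1 (Real.sqrt w)) (RLS.PP (Real.sqrt w) w) c l') := by
  set A := RLS.PP 1 (Real.sqrt w) with hA
  set B := RLS.PP (Real.sqrt w) w with hB
  have hx1 : 1 ≤ Real.sqrt w := by
    rw [Real.one_le_sqrt]
    exact hw
  have hxw : Real.sqrt w ^ 2 = w := Real.sq_sqrt (by linarith)
  have hxlew : Real.sqrt w ≤ w := by nlinarith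
  have hAB : RLS.PP 1 w = A ∪ B := by
    ext p
    rw [mem_union, hA, hB, BH_mem (by linarith), BH_mem (by linarith), BH_mem (by linarith)]
    constructor
    · rintro ⟨h1, h2, h3⟩
      rcases le_or_gt (p : ℝ) (Real.sqrt w) with h4 | h4
      · exact Or.inl ⟨h1, h2, h4⟩
      · exact Or.inr ⟨h1, h4, h3⟩
    · rintro (⟨h1, h2, h3⟩ | ⟨h1, h2, h3⟩)
      · exact ⟨h1, h2, h3.trans hxlew⟩
      · exact ⟨h1, by linarith, h3⟩
  have hsd : ∀ P ⊆ A ∪ B, P \ B ⊆ A := by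
    intro P hP p hp
    rw [mem_sdiff] at hp
    rcases mem_union.1 (hP hp.1) with h1 | h1
    · exact h1
    · exact absurd h1 hp.2
  refine ⟨?_, ?_, ?_, ?_, ?_⟩
  · rw [BH_w, if_pos]
    · rw [empty_inter, empty_sdiff, h.one, card_empty, pow_zero, one_mul]
    · refine ⟨empty_subset _, ?_⟩
      rw [empty_inter, card_empty]
      exact Nat.zero_le _
  · intro K
    rw [BH_w]
    split_ifs
    · rw [abs_mul, abs_pow, abs_neg, abs_one, one_pow, mul_one]
      exact h.le1 _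
    · rw [abs_zero]
      exact zero_le_one
  · intro K hK
    rw [BH_w] at hK
    by_cases h1 : K ⊆ A ∪ B ∧ (K ∩ B).card ≤ 2 * c
    · rw [if_pos h1] at hK
      obtain ⟨h2, h3⟩ := h.lev (K \ B) (left_ne_zero_of_mul hK)
      refine ⟨hAB ▸ h1.1, ?_⟩
      rw [← prod_inter_mul_prod_sdiff K B]
      have h4 : ∏ p ∈ K ∩ B, (p : ℝ) ≤ w ^ (2 * c) := by
        have h5 : ∏ p ∈ K ∩ B, (p : ℝ) ≤ ∏ p ∈ K ∩ B, w := by
          refine prod_le_prod (fun p _ => Nat.cast_nonneg p) fun p hp => ?_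
          have h6 := (mem_inter.1 hp).2
          rw [hB, BH_mem (by linarith)] at h6
          exact h6.2.2
        rw [prod_const] at h5
        exact h5.trans (pow_le_pow_right₀ hw h1.2)
      have h5 : Real.sqrt w ^ (4 * (c + 1) + 4) = w ^ (2 * c + 4) := by
        rw [show 4 * (c + 1) + 4 = 2 * (2 * c + 4) by ring, pow_mul, hxw]
      rw [h5] at h3
      calc (∏ p ∈ K ∩ B, (p : ℝ)) * ∏ p ∈ K \ B, (p : ℝ) ≤ w ^ (2 * c) * w ^ (2 * c + 4) :=
            mul_le_mul h4 h3 (prod_nonneg fun p _ => Nat.cast_nonneg p) (by positivity)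
        _ = w ^ (4 * c + 4) := by rw [← pow_add]; congr 1; ring
    · rw [if_neg h1] at hK
      exact absurd rfl hK
  · intro T hT
    rw [hAB] at hT
    rw [BH_sg, BH_mn A B c l' _ T hT, ← BH_sg]
    exact mul_nonneg (h.pos _ (hsd T hT)) (BH_ts_low (T ∩ B) (fun _ => 1) c
      (fun _ _ => zero_le_one) (fun _ _ => le_refl _)).1
  · intro P hP g hg
    rw [hAB] at hP
    rw [BH_mn A B c l' _ P hP]
    have h1 := h.upp (P \ B) (hsd P hP) g fun p hp => hg p (mem_sdiff.1 hp).1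
    obtain ⟨h2, h3⟩ := BH_ts_low (P ∩ B) g c (fun p hp => (hg p (mem_inter.1 hp).1).1)
      (fun p hp => by linarith [(hg p (mem_inter.1 hp).1).2.1])
    have hsum : ∑ p ∈ P ∩ B, g p ≤ S := by
      refine le_trans ?_ (hS w hw)
      refine (sum_le_sum fun p hp => (hg p (mem_inter.1 hp).1).2.2).trans ?_
      exact sum_le_sum_of_subset_of_nonneg inter_subset_right fun p _ _ => by positivity
    have hsum0 : 0 ≤ ∑ p ∈ P ∩ B, g p := sum_nonneg fun p hp => (hg p (mem_inter.1 hp).1).1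
    have hprod : Real.exp (-(2 * S)) ≤ ∏ p ∈ P ∩ B, (1 - g p) := by
      calc Real.exp (-(2 * S)) ≤ Real.exp (∑ p ∈ P ∩ B, -(2 * g p)) := by
            rw [Real.exp_le_exp, sum_neg_distrib, ← mul_sum]
            linarith
        _ = ∏ p ∈ P ∩ B, Real.exp (-(2 * g p)) := Real.exp_sum _ _
        _ ≤ ∏ p ∈ P ∩ B, (1 - g p) := by
            refine prod_le_prod (fun p _ => (Real.exp_pos _).le) fun p hp => ?_
            exact BH_exp (hg p (mem_inter.1 hp).1).1 (hg p (mem_inter.1 hp).1).2.1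
    have hes : es (P ∩ B) g (2 * c + 1) ≤ S ^ (2 * c + 1) / ((2 * c + 1).factorial : ℝ) := by
      refine (es_le_pow_div (P ∩ B) g (fun p hp => (hg p (mem_inter.1 hp).1).1) _).trans ?_
      exact div_le_div_of_nonneg_right (pow_le_pow_left₀ hsum0 hsum _) (Nat.cast_nonneg _)
    have hV0 : 0 ≤ ∏ p ∈ P ∩ B, (1 - g p) := (Real.exp_pos _).le.trans hprod
    have hes2 : es (P ∩ B) g (2 * c + 1) ≤ 3 / 4 * κ * (1 / 4) ^ c * ∏ p ∈ P ∩ B, (1 - g p) := by
      have h4 : 0 ≤ S ^ (2 * c + 1) / ((2 * c + 1).factorial : ℝ) := by positivity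
      have h5 : 1 ≤ Real.exp (2 * S) * ∏ p ∈ P ∩ B, (1 - g p) := by
        have h6 : Real.exp (2 * S) * Real.exp (-(2 * S)) = 1 := by
          rw [← Real.exp_add, add_neg_cancel, Real.exp_zero]
        exact h6.symm.le.trans (mul_le_mul_of_nonneg_left hprod (Real.exp_pos _).le)
      calc es (P ∩ B) g (2 * c + 1) ≤ S ^ (2 * c + 1) / ((2 * c + 1).factorial : ℝ) * 1 := by
            rw [mul_one]; exact hes
        _ ≤ S ^ (2 * c + 1) / ((2 * c + 1).factorial : ℝ) *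
            (Real.exp (2 * S) * ∏ p ∈ P ∩ B, (1 - g p)) := mul_le_mul_of_nonneg_left h5 h4
        _ = Real.exp (2 * S) * (S ^ (2 * c + 1) / ((2 * c + 1).factorial : ℝ)) *
            ∏ p ∈ P ∩ B, (1 - g p) := by ring
        _ ≤ _ := mul_le_mul_of_nonneg_right (hκ c) hV0
    have h6 : ts (P ∩ B) g (2 * c) ≤
        Real.exp (3 / 4 * κ * (1 / 4) ^ c) * ∏ p ∈ P ∩ B, (1 - g p) := by
      have h7 : 3 / 4 * κ * (1 / 4) ^ c + 1 ≤ Real.exp (3 / 4 * κ * (1 / 4) ^ c) :=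
        Real.add_one_le_exp _
      have h8 := mul_le_mul_of_nonneg_right h7 hV0
      linarith
    have hVA : 0 ≤ ∏ p ∈ P \ B, (1 - g p) := prod_nonneg fun p hp => by
      linarith [(hg p (mem_sdiff.1 hp).1).2.1]
    rw [add_sub_cancel] at h1 ⊢
    calc Mn l' g (P \ B) * ts (P ∩ B) g (2 * c)
        ≤ (Real.exp (κ * (1 / 4) ^ (c + 1)) * ∏ p ∈ P \ B, (1 - g p)) *
          ts (P ∩ B) g (2 * c) := mul_le_mul_of_nonneg_right h1 h2
      _ ≤ (Real.exp (κ * (1 / 4) ^ (c + 1)) * ∏ p ∈ P \ B, (1 - g p)) *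
          (Real.exp (3 / 4 * κ * (1 / 4) ^ c) * ∏ p ∈ P ∩ B, (1 - g p)) :=
          mul_le_mul_of_nonneg_left h6 (mul_nonneg (Real.exp_pos _).le hVA)
      _ = (Real.exp (κ * (1 / 4) ^ (c + 1)) * Real.exp (3 / 4 * κ * (1 / 4) ^ c)) *
          ((∏ p ∈ P ∩ B, (1 - g p)) * ∏ p ∈ P \ B, (1 - g p)) := by ring
      _ = Real.exp (κ * (1 / 4) ^ c) * ∏ p ∈ P, (1 - g p) := by
          rw [← Real.exp_add, prod_inter_mul_prod_sdiff]
          congr 2
          ring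

theorem BH_kappa (S : ℝ) (hS : 0 < S) (c : ℕ) :
    Real.exp (2 * S) * (S ^ (2 * c + 1) / ((2 * c + 1).factorial : ℝ)) ≤
      3 / 4 * (4 / 3 * (Real.exp (2 * S) * S * Real.exp (4 * S ^ 2))) * (1 / 4) ^ c := by
  have h1 : (4 * S ^ 2) ^ c / (c.factorial : ℝ) ≤ Real.exp (4 * S ^ 2) :=
    Real.pow_div_factorial_le_exp (4 * S ^ 2) (by positivity) c
  have h2 : (4 * S ^ 2) ^ c / ((2 * c + 1).factorial : ℝ) ≤ (4 * S ^ 2) ^ c / (c.factorial : ℝ) := by
    refine div_le_div_of_nonneg_left (by positivity) (by positivity) ?_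
    exact_mod_cast Nat.factorial_le (by omega)
  have h3 : Real.exp (2 * S) * (S ^ (2 * c + 1) / ((2 * c + 1).factorial : ℝ)) =
      (Real.exp (2 * S) * S * (1 / 4) ^ c) * ((4 * S ^ 2) ^ c / ((2 * c + 1).factorial : ℝ)) := by
    have h4 : (4 * S ^ 2) ^ c * (1 / 4) ^ c = S ^ (2 * c) := by
      rw [← mul_pow, pow_mul]
      congr 1
      ring
    rw [pow_succ, ← h4]
    ring
  rw [h3]
  have h5 := mul_le_mul_of_nonneg_left (h2.trans h1)
    (by positivity : 0 ≤ Real.exp (2 * S) * S * (1 / 4) ^ c)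
  refine h5.trans (le_of_eq ?_)
  ring

theorem BH : BH_stmt := by
  obtain ⟨S, hS0, hS⟩ := BH_mert
  obtain ⟨κ, hκ0, hκ⟩ : ∃ κ : ℝ, 0 < κ ∧ ∀ c : ℕ,
      Real.exp (2 * S) * (S ^ (2 * c + 1) / ((2 * c + 1).factorial : ℝ)) ≤
        3 / 4 * κ * (1 / 4) ^ c :=
    ⟨_, by positivity, BH_kappa S hS0⟩
  have key : ∀ n : ℕ, ∀ w : ℝ, 1 ≤ w → w < 2 ^ (2 ^ n) → ∀ c : ℕ, ∃ l : Finset ℕ → ℝ,
      BHW (Real.exp (κ * (1 / 4) ^ c) - 1) (4 * c + 4) w l := by
    intro n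
    induction n with
    | zero =>
      intro w hw hw2 c
      rw [pow_zero, pow_one] at hw2
      have hE : RLS.PP 1 w = ∅ := by
        refine eq_empty_of_forall_notMem fun p hp => ?_
        rw [BH_mem (by linarith)] at hp
        have h1 : (2 : ℝ) ≤ p := by exact_mod_cast hp.1.two_le
        linarith [hp.2.2]
      refine ⟨fun K => if K = ∅ then 1 else 0, ?_, ?_, ?_, ?_, ?_⟩
      · exact if_pos rfl
      · intro K
        show |if K = ∅ then (1 : ℝ) else 0| ≤ 1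
        split_ifs
        · rw [abs_one]
        · rw [abs_zero]
          exact zero_le_one
      · intro K hK
        have h1 : K = ∅ := by
          by_contra h2
          exact hK (if_neg h2)
        subst h1
        exact ⟨empty_subset _, by rw [prod_empty]; exact one_le_pow₀ hw⟩
      · intro T hT
        rw [hE, subset_empty] at hT
        subst hT
        rw [Sg, powerset_empty, sum_singleton, if_pos rfl]
        exact zero_le_one
      · intro P hP g _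
        rw [hE, subset_empty] at hP
        subst hP
        rw [Mn, powerset_empty, sum_singleton, if_pos rfl, prod_empty, prod_empty, add_sub_cancel,
          mul_one, mul_one]
        rw [Real.one_le_exp_iff]
        positivity
    | succ n ih =>
      intro w hw hw2 c
      have hx1 : 1 ≤ Real.sqrt w := by
        rw [Real.one_le_sqrt]
        exact hw
      have hx2 : Real.sqrt w < 2 ^ (2 ^ n) := by
        rw [Real.sqrt_lt' (by positivity), ← pow_mul, ← pow_succ]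
        exact hw2
      obtain ⟨l', hl'⟩ := ih (Real.sqrt w) hx1 hx2 (c + 1)
      exact ⟨_, BH_step S κ hS0 hS hκ w hw c l' hl'⟩
  intro ep hep
  obtain ⟨c, hc⟩ := exists_pow_lt_of_lt_one
    (div_pos (Real.log_pos (by linarith : (1 : ℝ) < 1 + ep)) hκ0) (by norm_num : (1 / 4 : ℝ) < 1)
  rw [lt_div_iff₀ hκ0] at hc
  have hle : Real.exp (κ * (1 / 4) ^ c) - 1 ≤ ep := by
    have h1 : Real.exp (κ * (1 / 4) ^ c) ≤ 1 + ep := by
      rw [← Real.le_log_iff_exp_le (by linarith)]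
      linarith
    linarith
  refine ⟨4 * c + 4, fun w hw => ?_⟩
  obtain ⟨m, hm⟩ := pow_unbounded_of_one_lt w (one_lt_two : (1 : ℝ) < 2)
  have hm2 : w < 2 ^ (2 ^ m) := hm.trans_le (pow_le_pow_right₀ one_le_two (Nat.lt_two_pow_self).le)
  obtain ⟨l, hl⟩ := key m w hw hm2 c
  refine ⟨l, hl.one, hl.le1, hl.lev, hl.pos, fun P hP g hg => (hl.upp P hP g hg).trans ?_⟩
  refine mul_le_mul_of_nonneg_right (by linarith) (prod_nonneg fun p hp => ?_)
  linarith [(hg p hp).2.1]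

end Pool.Agent.MK
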